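import Mathlib

set_option autoImplicit false

namespace Pool.Agent.Results.MP_698df0_al.Counter
open MvPolynomial
open scoped Classical

/-- position of an integer in the order `0 ≺ -1 ≺ 1 ≺ -2 ≺ 2 ≺ ⋯`; `a ≺ b` is `rk a < rk b` -/
def rk (a : ℤ) : ℕ := if 0 ≤ a then 2 * a.toNat else 2 * (-a).toNat - 1

/-- the multiplier `M(a, c)` -/
def M (a c : ℤ) : ℤ :=
  if 0 < a * c ∧ rk (a - c) < rk a then M (a - c) c + 1
  else if a * c < 0 ∧ rk (a + c) < rk a then M (a + c) c - 1 else 0
termination_by rk a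
decreasing_by all_goals omega

/-- `L(c)` -/
def L (c : ℤ) : ℤ := if Even c then |c| / 2 else -((|c| + 1) / 2)

/-- `LCR(c₁, c₂)`, the `≺`-maximum of `L(c₁)` and `L(c₂)` -/
def LCR (c₁ c₂ : ℤ) : ℤ := if rk (L c₁) < rk (L c₂) then L c₂ else L c₁

abbrev P (n : ℕ) := MvPolynomial (Fin n) ℤ

variable {n : ℕ} (m : MonomialOrder (Fin n))

/-- one reduction step `g →_F h` -/
def Red (F : Finset (P n)) (g h : P n) : Prop :=
  ∃ f ∈ F, f ≠ 0 ∧ ∃ (b : ℤ) (u : Fin n →₀ ℕ), coeff (u + m.degree f) g ≠ 0 ∧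
    rk (coeff (u + m.degree f) g - b * m.leadingCoeff f) < rk (coeff (u + m.degree f) g) ∧
    h = g - C b * monomial u 1 * f

/-- irreducible modulo `F` -/
def Irred (F : Finset (P n)) (g : P n) : Prop := ¬ ∃ h, Red m F g h

/-- normal form algorithm -/
def IsNF (S : Finset (P n) → P n → P n) : Prop :=
  ∀ F g, Relation.ReflTransGen (Red m F) g (S F g) ∧ Irred m F (S F g)

/-- Gröbner basis: unique irreducible descendant -/
def IsGB (F : Finset (P n)) : Prop :=
  ∀ g, ∃! h, Relation.ReflTransGen (Red m F) g h ∧ Irred m F h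

/-- the component of the critical pair of `f₁, f₂` obtained from `f` (`f = f₁` or `f = f₂`) -/
noncomputable def crit (f₁ f₂ f : P n) : P n :=
  monomial (m.degree f₁ ⊔ m.degree f₂) (LCR (m.leadingCoeff f₁) (m.leadingCoeff f₂)) -
    C (M (LCR (m.leadingCoeff f₁) (m.leadingCoeff f₂)) (m.leadingCoeff f)) *
      monomial (m.degree f₁ ⊔ m.degree f₂ - m.degree f) 1 * f

/-- one pass through the loop of Algorithm A' on the state `(G, B)` -/
def Step (S : Finset (P n) → P n → P n) (x y : Finset (P n) × Finset (Sym2 (P n))) : Prop :=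
  ∃ f₁ f₂, s(f₁, f₂) ∈ x.2 ∧
    y = if S x.1 (crit m f₁ f₂ f₁ - crit m f₁ f₂ f₂) = 0 then (x.1, x.2.erase s(f₁, f₂)) else
      (insert (S x.1 (crit m f₁ f₂ f₁ - crit m f₁ f₂ f₂)) x.1,
        x.2.erase s(f₁, f₂) ∪ x.1.image fun g => s(g, S x.1 (crit m f₁ f₂ f₁ - crit m f₁ f₂ f₂)))

lemma rk_zero : rk 0 = 0 := rfl

lemma red_wf (F : Finset (P n)) : WellFounded fun h g => Red m F g h := by
  let r : (Fin n →₀ ℕ) → (Fin n →₀ ℕ) → Prop := fun j i => m.toSyn i < m.toSyn j
  have : Std.Trichotomous r := ⟨fun a b h1 h2 => m.toSyn.injective (le_antisymm (not_lt.1 h1) (not_lt.1 h2))⟩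
  have hw : WellFounded (Finsupp.Lex r fun a b : ℤ => rk a < rk b) :=
    Finsupp.Lex.wellFounded' (fun a => by simp [rk_zero]) (InvImage.wf rk wellFounded_lt)
      (InvImage.wf m.toSyn wellFounded_lt)
  refine Subrelation.wf ?_ (InvImage.wf (fun g : P n => AddMonoidAlgebra.coeff g) hw)
  rintro h g ⟨f, -, -, b, u, -, h2, rfl⟩
  refine ⟨u + m.degree f, fun j hj => ?_, ?_⟩
  · show coeff j (g - C b * monomial u 1 * f) = coeff j g
    have : coeff j (monomial u (1 : ℤ) * f) = 0 := by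
      refine m.coeff_eq_zero_of_lt (lt_of_le_of_lt ?_ hj)
      refine m.degree_mul_le.trans ?_
      rw [map_add, map_add]
      exact add_le_add_left (m.degree_monomial_le _) _
    rw [coeff_sub, mul_assoc, coeff_C_mul, this]; simp
  · show rk (coeff _ (g - C b * monomial u 1 * f)) < rk (coeff _ g)
    rw [coeff_sub, mul_assoc, coeff_C_mul, coeff_monomial_mul, one_mul]
    exact h2

lemma exists_nf (F : Finset (P n)) (g : P n) :
    ∃ h, Relation.ReflTransGen (Red m F) g h ∧ Irred m F h := by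
  induction g using (red_wf m F).induction with
  | _ g ih =>
    by_cases h : Irred m F g
    · exact ⟨g, .refl, h⟩
    · obtain ⟨g', hg'⟩ := not_not.1 h
      obtain ⟨k, h1, h2⟩ := ih g' hg'
      exact ⟨k, .head hg' h1, h2⟩

lemma red_C {F : Finset (P n)} {c : ℤ} (hc : C c ∈ F) (hc0 : c ≠ 0) (a b : ℤ) (ha : a ≠ 0)
    (h : rk (a - b * c) < rk a) : Red m F (C a) (C (a - b * c)) :=
  ⟨C c, hc, by simpa using hc0, b, 0, by rwa [m.degree_C, add_zero, coeff_C, if_pos rfl],
    by rwa [m.degree_C, add_zero, coeff_C, if_pos rfl, m.leadingCoeff_C], by simp⟩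

lemma irred_zero (F : Finset (P n)) : Irred m F 0 := by
  rintro ⟨h, f, -, -, b, u, h1, -⟩
  simp at h1

noncomputable def F0 (n : ℕ) : Finset (P n) := {C 3, C 8}

lemma m3 : (C 3 : P n) ∈ F0 n := by simp [F0]
lemma m8 : (C 8 : P n) ∈ F0 n := by simp [F0]

lemma irred_neg : Irred m (F0 n) (C (-1)) := by
  rintro ⟨h, f, hf, -, b, u, h1, h2, -⟩
  simp only [F0, Finset.mem_insert, Finset.mem_singleton] at hf
  rcases hf with rfl | rfl
  all_goals
    rw [m.degree_C, add_zero, coeff_C] at h1 h2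
    rw [m.leadingCoeff_C] at h2
    split_ifs at h1 h2
    · unfold rk at h2; split_ifs at h2 <;> omega
    · exact h1 rfl

lemma red5 : Relation.ReflTransGen (Red m (F0 n)) (C 5) 0 := by
  have h1 := red_C m m8 (by norm_num) 5 1 (by norm_num) (by decide)
  have h2 := red_C m m3 (by norm_num) (5 - 1 * 8) (-1) (by norm_num) (by decide)
  exact .head h1 (.single (by simpa using h2))

lemma red5' : Relation.ReflTransGen (Red m (F0 n)) (C (-5)) 0 := by
  have h1 := red_C m m8 (by norm_num) (-5) (-1) (by norm_num) (by decide)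
  have h2 := red_C m m3 (by norm_num) (-5 - (-1) * 8) 1 (by norm_num) (by decide)
  exact .head h1 (.single (by simpa using h2))

noncomputable def S0 (F : Finset (P n)) (g : P n) : P n :=
  if F = F0 n ∧ (g = C 5 ∨ g = C (-5) ∨ g = 0) then 0 else (exists_nf m F g).choose

lemma M43 : M 4 3 = 1 := by
  rw [M, if_pos (by decide), M, if_neg (by decide), if_neg (by decide)]; rfl

lemma M48 : M 4 8 = 1 := by
  rw [M, if_pos (by decide), M, if_neg (by decide), if_neg (by decide)]; rfl

lemma S0_crit (f₁ f₂ : P n) (h1 : f₁ ∈ F0 n) (h2 : f₂ ∈ F0 n) :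
    S0 m (F0 n) (crit m f₁ f₂ f₁ - crit m f₁ f₂ f₂) = 0 := by
  refine if_pos ⟨rfl, ?_⟩
  simp only [F0, Finset.mem_insert, Finset.mem_singleton] at h1 h2
  have e1 : LCR 3 8 = 4 := by decide
  have e2 : LCR 8 3 = 4 := by decide
  rcases h1 with rfl | rfl <;> rcases h2 with rfl | rfl
  · simp
  · left
    simp only [crit, m.degree_C, m.leadingCoeff_C, e1, M43, M48, sup_idem, tsub_self, monomial_zero',
      ← map_mul, ← map_sub]
    rfl
  · right; left
    simp only [crit, m.degree_C, m.leadingCoeff_C, e2, M43, M48, sup_idem, tsub_self, monomial_zero',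
      ← map_mul, ← map_sub]
    rfl
  · simp

theorem result (n : ℕ) (m : MonomialOrder (Fin n)) :
    ∃ (F : Finset (P n)) (S : Finset (P n) → P n → P n), IsNF m S ∧ ¬ IsGB m F ∧
      ∀ B ⊆ F.sym2, Relation.ReflTransGen (Step m S) (F, B) (F, ∅) ∧
        ∀ y, Relation.ReflTransGen (Step m S) (F, B) y → y.1 = F := by
  refine ⟨F0 n, S0 m, fun F g => ?_, fun h => ?_, fun B hB => ⟨?_, fun y hy => ?_⟩⟩
  · unfold S0
    split_ifs with h
    · obtain ⟨rfl, rfl | rfl | rfl⟩ := h
      · exact ⟨red5 m, irred_zero m _⟩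
      · exact ⟨red5' m, irred_zero m _⟩
      · exact ⟨.refl, irred_zero m _⟩
    · exact (exists_nf m F g).choose_spec
  · have h1 := red_C m m3 (by norm_num) 5 2 (by norm_num) (by decide)
    have := (h (C 5)).unique ⟨red5 m, irred_zero m _⟩ ⟨.single h1, irred_neg m⟩
    have h2 := congrArg (coeff 0) this
    simp at h2
  · induction B using Finset.induction_on with
    | empty => exact .refl
    | insert a B ha ih =>
      refine .head ?_ (ih ((Finset.subset_insert _ _).trans hB))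
      obtain ⟨f₁, f₂⟩ := a
      have := Finset.mk_mem_sym2_iff.1 (hB (Finset.mem_insert_self _ _))
      refine ⟨f₁, f₂, Finset.mem_insert_self _ _, ?_⟩
      rw [if_pos (S0_crit m _ _ this.1 this.2)]
      exact Prod.ext rfl (Finset.erase_insert ha).symm
  · have : y.1 = F0 n ∧ y.2 ⊆ (F0 n).sym2 := by
      induction hy with
      | refl => exact ⟨rfl, hB⟩
      | tail _ hs ih =>
        obtain ⟨f₁, f₂, h1, rfl⟩ := hs
        have := Finset.mk_mem_sym2_iff.1 (ih.2 h1)
        rw [ih.1, if_pos (S0_crit m _ _ this.1 this.2)]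
        exact ⟨rfl, (Finset.erase_subset _ _).trans ih.2⟩
    exact this.1

end Pool.Agent.Results.MP_698df0_al.Counter
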